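import Pool.Agent.W785.FD.Stms

/-! FD-MEAS: sets whose complement has density zero at their points are null measurable. -/

set_option autoImplicit false

open MeasureTheory Metric Set Filter
open scoped ENNReal NNReal Topology

namespace Pool.Agent.W294.FD.Meas

open Pool.Agent.W785.FD

theorem main {X : Type*} [MetricSpace X] [ProperSpace X] [MeasurableSpace X] [BorelSpace X]
    (μ : Measure X) (D : ℝ) (hD : Dbl μ D) (h : S_LD μ) : S_MEAS μ := by
  intro V hV
  haveI : IsLocallyFiniteMeasure μ :=
    ⟨fun x => ⟨ball x 1, ball_mem_nhds x one_pos, hD.fin x 1⟩⟩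
  set H : Set X := toMeasurable μ Vᶜ with hH
  have hHm : MeasurableSet H := measurableSet_toMeasurable μ Vᶜ
  have hVH : Vᶜ ⊆ H := subset_toMeasurable μ Vᶜ
  have hHB : ∀ x r, μ (H ∩ ball x r) = μ (Vᶜ ∩ ball x r) := fun x r =>
    Measure.measure_toMeasurable_inter_of_sFinite measurableSet_ball Vᶜ
  have hLI : LI μ (H.indicator (fun _ => (1 : ℝ))) := by
    intro x r
    have : IntegrableOn (fun _ : X => (1 : ℝ)) (ball x r) μ :=
      integrableOn_const (hD.fin x r).ne
    exact this.indicator hHm
  have hae := h _ hLI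
  have hnull : μ (V ∩ H) = 0 := by
    rw [← compl_mem_ae_iff]
    filter_upwards [hae] with x hx hxVH
    obtain ⟨hxV, hxH⟩ := hxVH
    have h1 : Tendsto (fun r => dens μ Vᶜ x r) (𝓝[>] 0) (𝓝 0) := hV x hxV
    have h2 := hx.add h1
    rw [add_zero] at h2
    have h3 : ∀ᶠ r in 𝓝[>] (0 : ℝ),
        lav μ (fun y => ENNReal.ofReal |H.indicator (fun _ => (1 : ℝ)) y -
          H.indicator (fun _ => (1 : ℝ)) x|) x r + dens μ Vᶜ x r = 1 := by
      filter_upwards [self_mem_nhdsWithin] with r hr
      have hr : 0 < r := hr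
      have e1 : (fun y => ENNReal.ofReal |H.indicator (fun _ => (1 : ℝ)) y -
          H.indicator (fun _ => (1 : ℝ)) x|) = Hᶜ.indicator (fun _ => (1 : ℝ≥0∞)) := by
        funext y
        by_cases hy : y ∈ H
        · simp [hy, hxH]
        · simp [hy, hxH]
      unfold lav dens
      rw [e1, lintegral_indicator hHm.compl, lintegral_const, one_mul,
        Measure.restrict_restrict hHm.compl, Measure.restrict_apply_univ, ← hHB x r,
        ← ENNReal.add_div, inter_comm Hᶜ, inter_comm H, add_comm, ← Set.diff_eq,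
        measure_inter_add_diff _ hHm]
      exact ENNReal.div_self (hD.pos x r hr).ne' (hD.fin x r).ne
    have h4 : Tendsto (fun _ : ℝ => (1 : ℝ≥0∞)) (𝓝[>] 0) (𝓝 0) := h2.congr' h3
    have h5 := tendsto_nhds_unique h4 tendsto_const_nhds
    exact zero_ne_one h5
  have hVeq : V = Hᶜ ∪ (V ∩ H) := by
    ext x
    constructor
    · intro hx
      by_cases hxH : x ∈ H
      · exact Or.inr ⟨hx, hxH⟩
      · exact Or.inl hxH
    · rintro (hx | hx)
      · by_contra hxV
        exact hx (hVH hxV)
      · exact hx.1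
  rw [hVeq]
  exact hHm.compl.nullMeasurableSet.union (NullMeasurableSet.of_null hnull)

end Pool.Agent.W294.FD.Meas
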